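import Mathlib

open Set Filter Topology
open scoped NNReal

namespace Pool.Agent.Results.MP_f2fc76_an.ChainPoints

variable {X : Type} [MetricSpace X]

/-- an `ε`-chain of the map `g` from `x` to `y` inside `K` of duration `k` -/
def MapChain (g : X → X) (K : Set X) (x y : X) (ε : ℝ) (k : ℕ) : Prop :=
  1 ≤ k ∧ ∃ z : ℕ → X, z 0 = x ∧ z k = y ∧ (∀ i ≤ k, z i ∈ K) ∧
    ∀ i < k, dist (g (z i)) (z (i + 1)) < ε

/-- piecewise continuity on `[0, τ]`: finitely many discontinuities, with one-sided limits -/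
def PC (z : ℝ → X) (τ : ℝ) : Prop :=
  (∃ D : Finset ℝ, ∀ t ∈ Icc 0 τ, t ∉ D → ContinuousWithinAt z (Icc 0 τ) t) ∧
    (∀ t ∈ Ioc 0 τ, ∃ a, Tendsto z (𝓝[<] t) (𝓝 a)) ∧ ∀ t ∈ Ico 0 τ, ∃ a, Tendsto z (𝓝[>] t) (𝓝 a)

/-- an `ε`-chain of the semi-flow `F` from `x` to `y` inside `K` of duration `τ` -/
def FlowChain (F : Flow ℝ≥0 X) (K : Set X) (x y : X) (ε τ : ℝ) : Prop :=
  1 ≤ τ ∧ ∃ z : ℝ → X, PC z τ ∧ z 0 = x ∧ z τ = y ∧ (∀ t ∈ Icc 0 τ, z t ∈ K) ∧
    ∀ s t, 0 ≤ s → s < t → t ≤ τ → t - s ≤ 1 → dist (F (t - s).toNNReal (z s)) (z t) < ε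

/-- limit chain points of a map -/
def MapLC (g : X → X) (x y : X) : Prop :=
  ∃ K, IsCompact K ∧ ∃ T : ℝ → ℕ, Tendsto T (𝓝[>] 0) atTop ∧ ∀ ε > 0, MapChain g K x y ε (T ε)

/-- limit chain points of a semi-flow -/
def FlowLC (F : Flow ℝ≥0 X) (x y : X) : Prop :=
  ∃ K, IsCompact K ∧ ∃ T : ℝ → ℝ, Tendsto T (𝓝[>] 0) atTop ∧ ∀ ε > 0, FlowChain F K x y ε (T ε)

lemma pick {α : Type} [Preorder α] {T : ℝ → α} (h : Tendsto T (𝓝[>] 0) atTop) {δ : ℝ} (hδ : 0 < δ)
    (N : α) : ∃ ε, 0 < ε ∧ ε < δ ∧ N ≤ T ε := by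
  obtain ⟨ε, a, b⟩ := ((h.eventually_ge_atTop N).and (Ioo_mem_nhdsGT hδ)).exists
  exact ⟨ε, b.1, b.2, a⟩

lemma unif {G : ℝ → X → X} (hG : Continuous (Function.uncurry G)) {K : Set X} (hK : IsCompact K)
    (A : ℝ) {ε : ℝ} (hε : 0 < ε) : ∃ δ > 0, ∀ s ∈ Icc 0 A, ∀ a ∈ K, ∀ t b, dist s t < δ →
      dist a b < δ → dist (G s a) (G t b) < ε := by
  obtain ⟨δ, h1, h2⟩ := Metric.mem_uniformity_dist.1
    (((isCompact_Icc (a := 0) (b := A)).prod hK).uniformContinuousAt_of_continuousAt _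
      (fun _ _ => hG.continuousAt) (Metric.dist_mem_uniformity hε))
  exact ⟨δ, h1, fun s hs a ha t b c d => h2 (a := (s, a)) (b := (t, b)) (max_lt c d) ⟨hs, ha⟩⟩

theorem result (X : Type) [MetricSpace X] (F : Flow ℝ≥0 X) (T : ℝ≥0) (hT : 0 < T) (x y : X) :
    FlowLC F x y ↔ MapLC (F T) x y := by
  let G : ℝ → X → X := fun t => F t.toNNReal
  have hG : Continuous (Function.uncurry G) :=
    F.continuous (continuous_real_toNNReal.comp continuous_fst) continuous_snd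
  have G0 : ∀ a, G 0 a = a := fun a => by simp [G]
  have Ga : ∀ s t a, 0 ≤ s → 0 ≤ t → G (s + t) a = G s (G t a) := fun s t a hs ht => by
    simp only [G, Real.toNNReal_add hs ht, F.map_add]
  have GT : G T = F T := by simp [G]
  have T0 : (0 : ℝ) < T := hT
  constructor
  · rintro ⟨K, hK, τ, hτ, h⟩
    have C : ∀ m : ℕ, ∀ ε > 0, ∃ δ > 0, ∀ (z : ℝ → X) (τ : ℝ), (∀ t ∈ Icc 0 τ, z t ∈ K) →
        (∀ s t, 0 ≤ s → s < t → t ≤ τ → t - s ≤ 1 → dist (G (t - s) (z s)) (z t) < δ) →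
        ∀ s t, 0 ≤ s → s < t → t ≤ τ → t - s ≤ m + 1 → dist (G (t - s) (z s)) (z t) < ε := by
      intro m
      induction m with
      | zero => exact fun ε hε => ⟨ε, hε, fun z τ _ h => by simpa using h⟩
      | succ m ih =>
        intro ε hε
        obtain ⟨η, η0, hη⟩ := unif hG hK 1 (half_pos hε)
        obtain ⟨δ, δ0, hδ⟩ := ih η η0
        refine ⟨min δ (ε / 2), by positivity, fun z τ h1 h2 s t a b c d => ?_⟩
        rcases le_or_gt (t - s) 1 with e | e
        · exact (h2 s t a b c e).trans_le ((min_le_right _ _).trans (half_le_self hε.le))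
        have i1 := hδ z τ h1 (fun s t a b c d => (h2 s t a b c d).trans_le (min_le_left _ _)) s (t - 1)
          a (by linarith) (by linarith) (by push_cast at d; linarith)
        have i2 := hη 1 ⟨zero_le_one, le_rfl⟩ _ (h1 (t - 1) ⟨by linarith, by linarith⟩) 1 _
          (by simpa using η0) ((dist_comm _ _).trans_lt i1)
        have i3 := (h2 (t - 1) t (by linarith) (by linarith) c (by linarith)).trans_le (min_le_right _ _)
        rw [← Ga _ _ _ zero_le_one (by linarith), show 1 + (t - 1 - s) = t - s by ring] at i2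
        rw [sub_sub_cancel] at i3
        linarith [dist_triangle_left (G (t - s) (z s)) (z t) (G 1 (z (t - 1)))]
    have key : ∀ ε, 0 < ε → ∃ k : ℕ, ⌈1 / ε⌉₊ ≤ k ∧ MapChain (F T) K x y ε k := by
      intro ε hε
      obtain ⟨m, hm⟩ := exists_nat_ge (2 * T : ℝ)
      obtain ⟨δ, δ0, hδ⟩ := C m _ (half_pos hε)
      obtain ⟨η, η0, hη⟩ := unif hG hK T (half_pos hε)
      obtain ⟨N, hN⟩ := exists_nat_gt (T / η)
      obtain ⟨e, e0, e1, e2⟩ := pick hτ δ0 ((N + ⌈1 / ε⌉₊ + 1 : ℕ) * T)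
      obtain ⟨-, z, -, z0, z1, z2, z3⟩ := h e e0
      generalize τ e = τ at *
      have k1 : N + ⌈1 / ε⌉₊ + 1 ≤ ⌊τ / T⌋₊ := Nat.le_floor ((le_div_iff₀ T0).2 e2)
      have τ0 : 0 ≤ τ := le_trans (by positivity) e2
      have k2 := (le_div_iff₀ T0).1 (Nat.floor_le (div_nonneg τ0 T0.le))
      have k3 := (div_lt_iff₀ T0).1 (Nat.lt_floor_add_one (τ / T))
      generalize ⌊τ / T⌋₊ = k at *
      have k4 : (N : ℝ) + 1 ≤ k := by exact_mod_cast (by omega : N + 1 ≤ k)
      have N0 : (0 : ℝ) ≤ N := N.cast_nonneg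
      have k5 : (0 : ℝ) < k := by linarith
      obtain ⟨h, rfl⟩ : ∃ h, τ = k * h := ⟨τ / k, by field_simp⟩
      have h1 : T ≤ h := le_of_mul_le_mul_left k2 k5
      rw [div_lt_iff₀ η0] at hN
      have h2 : h - T < η := lt_of_mul_lt_mul_left (a := (k : ℝ)) (by nlinarith) k5.le
      have h3 : h ≤ 2 * T := le_of_mul_le_mul_left (a := (k : ℝ)) (by nlinarith) k5
      have mem : ∀ i ≤ k, (i : ℝ) * h ∈ Icc 0 (k * h) := fun i hi =>
        ⟨mul_nonneg i.cast_nonneg (by linarith), mul_le_mul_of_nonneg_right (by exact_mod_cast hi)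
          (by linarith)⟩
      refine ⟨k, by omega, by omega, fun i => z (i * h), by simpa using z0, z1, fun i hi => z2 _ (mem i hi),
        fun i hi => ?_⟩
      have i1 := hδ z _ z2 (fun s t a b c d => (z3 s t a b c d).trans e1) (i * h) ((i + 1 : ℕ) * h)
        (mem i hi.le).1 (by push_cast; linarith) (mem _ hi).2 (by push_cast; linarith)
      have i2 := hη T ⟨T0.le, le_rfl⟩ _ (z2 _ (mem i hi.le)) h (z (i * h))
        (by rw [Real.dist_eq, abs_lt]; constructor <;> linarith) (by simpa using η0)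
      rw [show ((i + 1 : ℕ) : ℝ) * h - i * h = h by push_cast; ring] at i1
      rw [← GT]
      linarith [dist_triangle (G T (z (i * h))) (G h (z (i * h))) (z ((i + 1 : ℕ) * h))]
    choose! k k1 k2 using key
    refine ⟨K, hK, k, tendsto_atTop_mono' _ (eventually_mem_nhdsWithin.mono k1) ?_, k2⟩
    simp only [one_div]
    exact tendsto_nat_ceil_atTop.comp tendsto_inv_nhdsGT_zero
  · rintro ⟨K, hK, k, hk, h⟩
    have D : ∀ m : ℕ, ∀ ε > 0, ∃ δ > 0, ∀ (z : ℕ → X) (k : ℕ), (∀ i ≤ k, z i ∈ K) →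
        (∀ i < k, dist (G T (z i)) (z (i + 1)) < δ) → ∀ i, ∀ l ≤ m, i + l ≤ k →
          dist (G (l * T) (z i)) (z (i + l)) < ε := by
      intro m
      induction m with
      | zero => exact fun ε hε => ⟨1, one_pos, fun z k _ _ i l hl _ => by
          simpa [Nat.le_zero.1 hl, G0] using hε⟩
      | succ m ih =>
        intro ε hε
        obtain ⟨η, η0, hη⟩ := unif hG hK T (half_pos hε)
        obtain ⟨δ, δ0, hδ⟩ := ih η η0
        refine ⟨min δ (ε / 2), by positivity, fun z k h1 h2 i l a b => ?_⟩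
        rcases l with _ | l
        · simpa [G0] using hε
        have i1 := hδ z k h1 (fun i a => (h2 i a).trans_le (min_le_left _ _)) i l (by omega) (by omega)
        have i2 := hη T ⟨T0.le, le_rfl⟩ _ (h1 (i + l) (by omega)) T _ (by simpa using η0)
          ((dist_comm _ _).trans_lt i1)
        have i3 := (h2 (i + l) (by omega)).trans_le (min_le_right _ _)
        rw [← Ga _ _ _ T0.le (by positivity)] at i2
        rw [show ((l + 1 : ℕ) : ℝ) * T = T + l * T by push_cast; ring, ← add_assoc]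
        linarith [dist_triangle_left (G (T + l * T) (z i)) (z (i + l + 1)) (G T (z (i + l)))]
    have key : ∀ ε, 0 < ε → ∃ τ : ℝ, ε⁻¹ ≤ τ ∧
        FlowChain F (Function.uncurry G '' (Icc 0 (T : ℝ) ×ˢ K)) x y ε τ := by
      intro ε hε
      obtain ⟨m, hm⟩ := exists_nat_ge (1 / T : ℝ)
      obtain ⟨η, η0, hη⟩ := unif hG hK T hε
      obtain ⟨δ, δ0, hδ⟩ := D (m + 1) η η0
      obtain ⟨N, hN⟩ := exists_nat_ge ((ε⁻¹ + 1) / T)
      obtain ⟨e, e0, e1, e2⟩ := pick hk δ0 N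
      obtain ⟨-, w, w0, w1, w2, w3⟩ := h e e0
      generalize k e = k at *
      rw [div_le_iff₀ T0] at hN hm
      have k1 : ε⁻¹ + 1 ≤ k * T := hN.trans (by gcongr)
      have := inv_pos.2 hε
      let n : ℝ → ℕ := fun t => ⌊t / T⌋₊
      have n1 : ∀ t, 0 ≤ t → n t * T ≤ t := fun t ht =>
        (le_div_iff₀ T0).1 (Nat.floor_le (div_nonneg ht T0.le))
      have n2 : ∀ t, t < (n t + 1) * T := fun t => (div_lt_iff₀ T0).1 (Nat.lt_floor_add_one _)
      have n3 : ∀ (c : ℕ) (t : ℝ), c * T ≤ t → t < (c + 1) * T → n t = c := fun c t a b =>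
        (Nat.floor_eq_iff (div_nonneg (le_trans (by positivity) a) T0.le)).2
          ⟨(le_div_iff₀ T0).2 a, (div_lt_iff₀ T0).2 b⟩
      have n4 : ∀ t : ℝ, t ≤ k * T → n t ≤ k := fun t ht => Nat.floor_le_of_le ((div_le_iff₀ T0).2 ht)
      let z : ℝ → X := fun t => G (t - n t * T) (w (n t))
      have lim : ∀ (t : ℝ) (c : ℕ) (l : Filter ℝ), l ≤ 𝓝 t → (∀ᶠ s : ℝ in l, c * T ≤ s ∧ s < (c + 1) * T) →
          Tendsto z l (𝓝 (G (t - c * T) (w c))) := fun t c l a b =>
        (((hG.comp (f := fun s : ℝ => (s - c * T, w c)) (by fun_prop)).tendsto t).mono_left a).congr'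
          (b.mono fun s hs => by simp [z, n3 c s hs.1 hs.2])
      refine ⟨k * T, by linarith, by linarith, z, ⟨⟨(Finset.range (k + 1)).image fun i : ℕ => i * T,
        fun t ht a => ?_⟩, fun t ht => ?_, fun t ht => ⟨_, lim t (n t) _ nhdsWithin_le_nhds ?_⟩⟩, ?_, ?_,
        fun t ht => ⟨(t - n t * T, w (n t)), ⟨⟨by linarith [n1 t ht.1], by linarith [n2 t]⟩, w2 _ (n4 t ht.2)⟩, rfl⟩,
        fun s t a b c d => ?_⟩
      · refine (lim t (n t) _ le_rfl (mem_of_superset (Ioo_mem_nhds ((n1 t ht.1).lt_of_ne fun e => a ?_)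
          (n2 t)) fun s hs => ⟨hs.1.le, hs.2⟩)).mono_left nhdsWithin_le_nhds
        exact Finset.mem_image.2 ⟨_, Finset.mem_range.2 (Nat.lt_succ_of_le (n4 t ht.2)), e⟩
      · obtain ⟨c, hc⟩ : ∃ c, ⌈t / T⌉₊ = c + 1 := ⟨_, (Nat.succ_pred_eq_of_pos
          (Nat.ceil_pos.2 (div_pos ht.1 T0))).symm⟩
        rw [Nat.ceil_eq_iff (by omega), lt_div_iff₀ T0, div_le_iff₀ T0] at hc
        refine ⟨_, lim t c _ nhdsWithin_le_nhds (mem_of_superset (Ioo_mem_nhdsLT hc.1)
          fun s hs => ⟨by simpa using hs.1.le, hs.2.trans_le (by simpa using hc.2)⟩)⟩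
      · exact mem_of_superset (Ioo_mem_nhdsGT (n2 t)) fun s hs =>
          ⟨(n1 t ht.1).trans hs.1.le, hs.2⟩
      · simp [z, n, G0, w0]
      · simp [z, n3 k (k * T) le_rfl (by linarith), G0, w1]
      · obtain ⟨l, hl⟩ := Nat.exists_eq_add_of_le (show n s ≤ n t from
          Nat.floor_le_floor (by gcongr))
        have a1 := n1 s a
        have a2 := n2 s
        have a3 := n1 t (by linarith)
        have a4 := n2 t
        have a5 := n4 t c
        have a6 : ((n t : ℕ) : ℝ) = n s + l := by exact_mod_cast hl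
        have a7 : (l : ℝ) < ((m + 2 : ℕ) : ℝ) := lt_of_mul_lt_mul_right (a := (T : ℝ))
          (by push_cast; rw [a6] at a3; nlinarith) T0.le
        have i1 := hδ w k w2 (fun i a => GT ▸ (w3 i a).trans e1) (n s) l
          (by have := Nat.cast_lt.1 a7; omega) (by omega)
        have i2 := hη (t - n t * T) ⟨by linarith, by linarith⟩ _ (w2 _ a5) (t - n t * T) _
          (by simpa using η0)
          (by rw [hl, dist_comm]; exact i1)
        show dist (G (t - s) (G _ _)) (G _ _) < ε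
        rw [← Ga _ _ _ (by linarith) (by positivity), dist_comm] at i2
        rw [← Ga _ _ _ (by linarith) (by linarith), show t - s + (s - n s * T) = t - n t * T + l * T by
          rw [a6]; ring]
        exact i2
    choose! τ k1 k2 using key
    exact ⟨_, (isCompact_Icc.prod hK).image hG, τ, tendsto_atTop_mono' _
      (eventually_mem_nhdsWithin.mono k1) tendsto_inv_nhdsGT_zero, k2⟩

end Pool.Agent.Results.MP_f2fc76_an.ChainPoints
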